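import Mathlib
import Pool.Agent.Lib.MP_d0f9e0_co.SH.Pow

set_option autoImplicit false

/-!
# Leaf lattices

`A = 1 + q^j U` on the `A`-stable lattice `L`, `U` without eigenvector modulo `q`. For
`w ∈ q^(-j) L` of order `q^j` modulo `L` the lattice `L' = L + Z w` is `A`-stable and the group of
the fixed points of `A` in `V / L'` has an element of order `q^(2j)`; moreover
`T - 2 = m q^(2j)` with `q ∤ m`.
-/

namespace Pool.MP_d0f9e0_co.LL54

open SH

/-- Cayley-Hamilton in determinant one: `A² - T A + 1 = 0`. -/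
def CH (A : V ≃+ V) (T : ℤ) : Prop := ∀ p, A (A p) + p = T • A p

/-- `A = 1 + q^j U` on the `A`-stable lattice `L`, and `U` has no eigenvector modulo `q`. -/
structure Amb (A : V ≃+ V) (L : AddSubgroup V) (q j : ℕ) (T : ℤ) : Prop where
  prime : q.Prime
  hj : j ≠ 0
  ch : CH A T
  stable : ∀ p, A p ∈ L ↔ p ∈ L
  cong : ∀ p ∈ L, ∃ u ∈ L, A p - p = (q ^ j) • u
  noeig : ∀ p ∈ L, ∀ u ∈ L, A p - p = (q ^ j) • u → ∀ m : ℤ,
    (∃ r ∈ L, u - m • p = q • r) → ∃ r ∈ L, p = q • r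

/-- `w` has order exactly `q^j` modulo `L`. -/
structure Wt (L : AddSubgroup V) (q j : ℕ) (w : V) : Prop where
  mem : (q ^ j) • w ∈ L
  prim : ¬ ∃ r ∈ L, (q ^ j) • w = q • r

/-- The leaf lattice. -/
def Lw (L : AddSubgroup V) (w : V) : AddSubgroup V := L ⊔ AddSubgroup.zmultiples w

theorem mem_Lw {L : AddSubgroup V} {w p : V} : p ∈ Lw L w ↔ ∃ l ∈ L, ∃ k : ℤ, p = l + k • w := by
  unfold Lw
  rw [AddSubgroup.mem_sup]
  constructor
  · rintro ⟨l, hl, z, hz, rfl⟩
    obtain ⟨k, rfl⟩ := AddSubgroup.mem_zmultiples_iff.mp hz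
    exact ⟨l, hl, k, rfl⟩
  · rintro ⟨l, hl, k, rfl⟩
    exact ⟨l, hl, k • w, AddSubgroup.mem_zmultiples_iff.mpr ⟨k, rfl⟩, rfl⟩

theorem le_Lw (L : AddSubgroup V) (w : V) : L ≤ Lw L w := le_sup_left

theorem w_mem_Lw (L : AddSubgroup V) (w : V) : w ∈ Lw L w :=
  mem_Lw.mpr ⟨0, L.zero_mem, 1, by simp⟩

theorem nsmul_inj {n : ℕ} (hn : n ≠ 0) {x y : V} (h : n • x = n • y) : x = y := by
  have hn' : (n : ℚ) ≠ 0 := by exact_mod_cast hn
  rw [← Nat.cast_smul_eq_nsmul ℚ, ← Nat.cast_smul_eq_nsmul ℚ] at h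
  exact smul_right_injective V hn' h

namespace Wt

variable {L : AddSubgroup V} {q j : ℕ} {w : V}

theorem order (hq : q.Prime) (hj : j ≠ 0) (hw : Wt L q j w) :
    addOrderOf (QuotientAddGroup.mk w : V ⧸ L) = q ^ j := by
  obtain ⟨i, rfl⟩ := Nat.exists_eq_succ_of_ne_zero hj
  haveI := Fact.mk hq
  refine addOrderOf_eq_prime_pow ?_ ?_
  · intro h
    have h1 : (q ^ i) • w ∈ L := by
      rw [← QuotientAddGroup.eq_zero_iff, QuotientAddGroup.mk_nsmul]
      exact h
    exact hw.prim ⟨_, h1, by rw [smul_smul, ← pow_succ']⟩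
  · rw [← QuotientAddGroup.mk_nsmul, QuotientAddGroup.eq_zero_iff]
    exact hw.mem

theorem dvd (hq : q.Prime) (hj : j ≠ 0) (hw : Wt L q j w) {k : ℤ} (hk : k • w ∈ L) :
    ((q ^ j : ℕ) : ℤ) ∣ k := by
  rw [← hw.order hq hj, addOrderOf_dvd_iff_zsmul_eq_zero, ← QuotientAddGroup.mk_zsmul,
    QuotientAddGroup.eq_zero_iff]
  exact hk

end Wt

namespace Amb

variable {A : V ≃+ V} {L : AddSubgroup V} {q j : ℕ} {T : ℤ}

theorem symm_mem (h : Amb A L q j T) (p : V) : A.symm p ∈ L ↔ p ∈ L := by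
  rw [← h.stable, A.apply_symm_apply]

theorem sub_mem (h : Amb A L q j T) {w : V} (hw : Wt L q j w) : A w - w ∈ L := by
  obtain ⟨u, hu, e⟩ := h.cong _ hw.mem
  rw [map_nsmul, ← nsmul_sub] at e
  rw [nsmul_inj (pow_ne_zero _ h.prime.ne_zero) e]
  exact hu

/-- The leaf lattice is `A`-stable. -/
theorem stable_Lw (h : Amb A L q j T) {w : V} (hw : Wt L q j w) (p : V) :
    A p ∈ Lw L w ↔ p ∈ Lw L w := by
  have h1 := h.sub_mem hw
  constructor
  · intro hp
    obtain ⟨l, hl, k, e⟩ := mem_Lw.mp hp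
    refine mem_Lw.mpr ⟨A.symm l - k • A.symm (A w - w), ?_, k, ?_⟩
    · exact L.sub_mem ((h.symm_mem _).mpr hl) (L.zsmul_mem ((h.symm_mem _).mpr h1) k)
    · have e1 : p = A.symm l + k • A.symm w := by
        rw [← A.symm_apply_apply p, e, map_add, map_zsmul]
      rw [e1, map_sub, A.symm_apply_apply, smul_sub]
      abel
  · intro hp
    obtain ⟨l, hl, k, rfl⟩ := mem_Lw.mp hp
    refine mem_Lw.mpr ⟨A l + k • (A w - w), ?_, k, ?_⟩
    · exact L.add_mem ((h.stable _).mpr hl) (L.zsmul_mem h1 k)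
    · rw [map_add, map_zsmul, smul_sub]
      abel

/-- `q z = 0`, `z ∈ q^(-1) L`: the points are fixed modulo `L`. -/
theorem fix_of_smul_mem (h : Amb A L q j T) {t : V} (ht : q • t ∈ L) : A t - t ∈ L := by
  obtain ⟨i, rfl⟩ := Nat.exists_eq_succ_of_ne_zero h.hj
  obtain ⟨u, hu, e⟩ := h.cong _ ht
  have e1 : A t - t = (q ^ i) • u := by
    rw [map_nsmul, ← nsmul_sub, pow_succ', ← smul_smul] at e
    exact nsmul_inj h.prime.ne_zero e
  rw [e1]
  exact L.nsmul_mem hu _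

/-- `(A - 1)² = (T - 2) A`. -/
theorem sq_eq (h : Amb A L q j T) (p : V) :
    A (A p - p) - (A p - p) = (T - 2) • A p := by
  rw [map_sub, sub_smul, ← h.ch p, two_smul]
  abel

/-- `T - 2 = m q^(2j)` with `q ∤ m`. -/
theorem trace_eq (h : Amb A L q j T) {w : V} (hw : Wt L q j w) :
    ∃ m : ℤ, T - 2 = m * (q : ℤ) ^ (2 * j) ∧ ¬ (q : ℤ) ∣ m := by
  have hq0 : (q : ℤ) ≠ 0 := by exact_mod_cast h.prime.ne_zero
  set v : V := (q ^ j) • w with hv
  obtain ⟨u, hu, e⟩ := h.cong v hw.mem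
  obtain ⟨u', hu', e'⟩ := h.cong u hu
  -- `(A - 1)² v = q^(2j) u'`
  have e2 : (T - 2) • A v = (q ^ (2 * j)) • u' := by
    rw [← h.sq_eq v, e, map_nsmul, ← nsmul_sub, e', smul_smul, ← pow_add, two_mul]
  -- `A v` is primitive
  have hAv : A v ∈ L := (h.stable v).mpr hw.mem
  have hprim : ¬ ∃ r ∈ L, A v = q • r := by
    rintro ⟨r, hr, er⟩
    refine hw.prim ⟨A.symm r, (h.symm_mem r).mpr hr, ?_⟩
    rw [← A.symm_apply_apply ((q ^ j) • w), ← hv, er, map_nsmul]
  -- divisibility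
  have hdvd : ∀ i : ℕ, ∀ k : ℤ, ∀ r ∈ L, k • A v = (q ^ i) • r → ((q : ℤ) ^ i) ∣ k := by
    intro i
    induction i with
    | zero => intro k r _ _; simp
    | succ i ih =>
      intro k r hr er
      obtain ⟨k', rfl⟩ := ih k (q • r) (L.nsmul_mem hr _) (by rw [er, smul_smul, ← pow_succ])
      have e3 : k' • A v = q • r := by
        have : (q ^ i) • (k' • A v) = (q ^ i) • (q • r) := by
          rw [smul_smul, ← pow_succ, ← er, mul_smul, ← natCast_zsmul, Nat.cast_pow]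
        exact nsmul_inj (pow_ne_zero _ h.prime.ne_zero) this
      by_contra hc
      have hc' : IsCoprime (q : ℤ) k' := by
        rw [Int.isCoprime_iff_gcd_eq_one]
        refine (Int.isCoprime_iff_gcd_eq_one.mp ?_)
        refine ((Nat.prime_iff_prime_int.mp h.prime).coprime_iff_not_dvd).mpr ?_
        intro hd
        exact hc (by rw [pow_succ]; exact mul_dvd_mul_left _ hd)
      obtain ⟨a, b, hab⟩ := hc'
      refine hprim ⟨a • A v + b • r, L.add_mem (L.zsmul_mem hAv _) (L.zsmul_mem hr _), ?_⟩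
      calc A v = (a * q + b * k') • A v := by rw [hab, one_smul]
        _ = q • (a • A v + b • r) := by
            rw [add_smul, smul_add, mul_smul, mul_smul, e3, natCast_zsmul, smul_comm a q,
              smul_comm b q]
  obtain ⟨m, hm⟩ := hdvd (2 * j) (T - 2) u' hu' e2
  refine ⟨m, by rw [hm]; ring, ?_⟩
  rintro ⟨m', rfl⟩
  -- `u' = m A v = q m' A v`
  have e3 : u' = q • (m' • A v) := by
    have : (q ^ (2 * j)) • u' = (q ^ (2 * j)) • (q • (m' • A v)) := by
      rw [← e2, hm, ← natCast_zsmul, ← natCast_zsmul, smul_smul, smul_smul, Nat.cast_pow]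
      congr 1
      ring
    exact nsmul_inj (pow_ne_zero _ h.prime.ne_zero) this
  obtain ⟨r, hr, er⟩ := h.noeig u hu u' hu' e' 0
    ⟨m' • A v, L.zsmul_mem hAv _, by rw [zero_smul, sub_zero, e3]⟩
  obtain ⟨r', hr', er'⟩ := h.noeig v hw.mem u hu e 0
    ⟨r, hr, by rw [zero_smul, sub_zero, er]⟩
  exact hw.prim ⟨r', hr', er'⟩

/-- The generator of the `q`-part of the fixed points modulo the leaf lattice. -/
theorem exists_gen (h : Amb A L q j T) {w : V} (hw : Wt L q j w) :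
    ∃ p : V, A p - p ∈ Lw L w ∧
      addOrderOf (QuotientAddGroup.mk p : V ⧸ Lw L w) = q ^ (2 * j) := by
  obtain ⟨m, hm, hmq⟩ := h.trace_eq hw
  have hq0 : (q : ℚ) ≠ 0 := by exact_mod_cast h.prime.ne_zero
  set g : V := w - A.symm w with hg
  have hgA : A g = A w - w := by rw [hg, map_sub, A.apply_symm_apply]
  have hgL : g ∈ L := by
    rw [← h.stable, hgA]; exact h.sub_mem hw
  set p : V := ((q : ℚ) ^ (2 * j))⁻¹ • g with hp
  have hpq : (q ^ (2 * j)) • p = g := by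
    rw [hp, ← Nat.cast_smul_eq_nsmul ℚ, smul_smul]
    push_cast
    rw [mul_inv_cancel₀ (pow_ne_zero _ hq0), one_smul]
  -- `(A - 1) p = m w`
  have hAp : A p - p = m • w := by
    refine nsmul_inj (pow_ne_zero (2 * j) h.prime.ne_zero) ?_
    have e1 := h.sq_eq (A.symm w)
    rw [A.apply_symm_apply, hm, ← hg] at e1
    rw [nsmul_sub, ← map_nsmul, hpq, e1, ← natCast_zsmul, smul_smul]
    congr 1
    push_cast
    ring
  obtain ⟨i, hi⟩ := Nat.exists_eq_succ_of_ne_zero (mul_ne_zero two_ne_zero h.hj)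
  refine ⟨p, ?_, ?_⟩
  · rw [hAp]
    exact (Lw L w).zsmul_mem (w_mem_Lw L w) m
  · rw [hi]
    haveI := Fact.mk h.prime
    refine addOrderOf_eq_prime_pow ?_ ?_
    · intro h1
      rw [← QuotientAddGroup.mk_nsmul, QuotientAddGroup.eq_zero_iff] at h1
      obtain ⟨l, hl, k, e⟩ := mem_Lw.mp h1
      have e1 : g = q • l + (q * k : ℤ) • w := by
        rw [← hpq, hi, Nat.succ_eq_add_one, pow_succ', ← smul_smul, e, smul_add, mul_smul,
          natCast_zsmul]
      have e2 : (q * k : ℤ) • w ∈ L := by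
        have : (q * k : ℤ) • w = g - q • l := by rw [e1]; abel
        rw [this]
        exact L.sub_mem hgL (L.nsmul_mem hl _)
      obtain ⟨k', hk'⟩ := hw.dvd h.prime h.hj e2
      set v : V := (q ^ j) • w with hv
      have e3 : (q * k : ℤ) • w = k' • v := by
        rw [hk', hv, ← natCast_zsmul, smul_smul, mul_comm]
      rw [e3] at e1
      -- `U v = A w - w`
      obtain ⟨u, hu, e4⟩ := h.cong v hw.mem
      have e5 : u = A w - w := by
        rw [hv, map_nsmul, ← nsmul_sub] at e4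
        exact (nsmul_inj (pow_ne_zero _ h.prime.ne_zero) e4).symm
      obtain ⟨n, hn⟩ := Nat.exists_eq_succ_of_ne_zero h.hj
      have e6 : u = q • A l + k' • (v + (q ^ j) • u) := by
        rw [← e4, add_sub_cancel, e5, ← hgA, e1, map_add, map_nsmul, map_zsmul]
      refine hw.prim (h.noeig v hw.mem u hu e4 k' ⟨A l + k' • ((q ^ n) • u), ?_, ?_⟩)
      · exact L.add_mem ((h.stable l).mpr hl) (L.zsmul_mem (L.nsmul_mem hu _) _)
      · have e7 : u - k' • v = q • A l + k' • ((q ^ j) • u) := by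
          rw [sub_eq_iff_eq_add]
          conv_lhs => rw [e6]
          rw [smul_add]
          abel
        rw [e7, smul_add, hn, Nat.succ_eq_add_one, pow_succ', ← smul_smul, smul_comm k' q]
    · rw [← QuotientAddGroup.mk_nsmul, QuotientAddGroup.eq_zero_iff, ← Nat.succ_eq_add_one, ← hi,
        hpq]
      exact le_Lw L w hgL

end Amb

end Pool.MP_d0f9e0_co.LL54
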