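import Mathlib
import Pool.Agent.Lib.MP_d0f9e0_co.GH.Defs
import Pool.Agent.Lib.MP_d0f9e0_co.LL54.Leaf

set_option autoImplicit false

/-!
# Inert primes: the power `A = B^J = 1 + q^j U` without eigenvector modulo `q`
-/

namespace Pool.MP_d0f9e0_co.LL54

open SH GH

section coords

variable {θ η : ℝ} {A B : V ≃+ V} {L : AddSubgroup V} {δ : ℚ} {u w : V}

theorem Lat.mem_iff (hL : Lat L δ u w) (p : V) : p ∈ L ↔ ∃ x y : ℤ, p = x • u + y • w := by
  rw [hL.eq, AddSubgroup.mem_closure_pair]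
  constructor
  · rintro ⟨x, y, h⟩; exact ⟨x, y, h.symm⟩
  · rintro ⟨x, y, h⟩; exact ⟨x, y, h.symm⟩

theorem Lat.comb (hL : Lat L δ u w) (x y : ℤ) : x • u + y • w ∈ L :=
  (Lat.mem_iff hL _).mpr ⟨x, y, rfl⟩

theorem det_zsmul_left (m : ℤ) (v w : V) : det (m • v) w = m * det v w := by
  rw [← Int.cast_smul_eq_zsmul ℚ, det_smul_left]

theorem det_zsmul_right (m : ℤ) (v w : V) : det v (m • w) = m * det v w := by
  rw [← Int.cast_smul_eq_zsmul ℚ, det_smul_right]

theorem Lat.ind (hL : Lat L δ u w) {x y x' y' : ℤ} (h : x • u + y • w = x' • u + y' • w) :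
    x = x' ∧ y = y' := by
  have hd : det u w ≠ 0 := by rw [hL.det_eq]; exact hL.pos.ne'
  have h1 := congrArg (fun v => det v w) h
  have h2 := congrArg (fun v => det u v) h
  simp only [det_add_left, det_add_right, det_zsmul_left, det_zsmul_right, det_self, mul_zero,
    add_zero, zero_add] at h1 h2
  exact ⟨by exact_mod_cast mul_right_cancel₀ hd h1, by exact_mod_cast mul_right_cancel₀ hd h2⟩

theorem Lat.ind_smul (hL : Lat L δ u w) {q : ℕ} {x y : ℤ} {r : V} (hr : r ∈ L)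
    (h : x • u + y • w = q • r) : (q : ℤ) ∣ x ∧ (q : ℤ) ∣ y := by
  obtain ⟨x', y', rfl⟩ := (Lat.mem_iff hL r).mp hr
  rw [smul_add, ← natCast_zsmul, ← natCast_zsmul, smul_smul, smul_smul] at h
  obtain ⟨h1, h2⟩ := Lat.ind hL h
  exact ⟨⟨x', h1⟩, ⟨y', h2⟩⟩

/-- every vector has a multiple in the lattice -/
theorem Lat.exists_smul (hL : Lat L δ u w) (p : V) : ∃ n : ℕ, n ≠ 0 ∧ n • p ∈ L := by
  have hd : det u w ≠ 0 := by rw [hL.det_eq]; exact hL.pos.ne'
  have e := det_expand u w p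
  set r := det p w / det u w with hr
  set s := det u p / det u w with hs
  have hp : p = r • u + s • w := by
    have e1 : p = (det u w)⁻¹ • (det u w • p) := by
      rw [smul_smul, inv_mul_cancel₀ hd, one_smul]
    rw [e1, e, smul_add, smul_smul, smul_smul, hr, hs]
    congr 1
    · congr 1; field_simp
    · congr 1; field_simp
  refine ⟨r.den * s.den, mul_ne_zero r.den_ne_zero s.den_ne_zero, ?_⟩
  have h1 : (r.den * s.den) • p = (r.num * s.den) • u + (s.num * r.den) • w := by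
    rw [hp, smul_add, ← Nat.cast_smul_eq_nsmul ℚ, ← Nat.cast_smul_eq_nsmul ℚ,
      ← Int.cast_smul_eq_zsmul ℚ, ← Int.cast_smul_eq_zsmul ℚ, smul_smul, smul_smul]
    push_cast
    congr 2
    · have := Rat.mul_den_eq_num r
      rw [mul_comm (r.den : ℚ), mul_assoc, mul_comm (r.den : ℚ), this]; ring
    · have := Rat.mul_den_eq_num s
      rw [mul_assoc, mul_comm (s.den : ℚ), this]; ring
  rw [h1]
  exact Lat.comb hL _ _

theorem CH.of_lat (hL : Lat L δ u w) {T : ℤ} (h : ∀ p ∈ L, A (A p) + p = T • A p) : CH A T := by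
  intro p
  obtain ⟨n, hn, hp⟩ := Lat.exists_smul hL p
  have := h _ hp
  refine nsmul_inj hn ?_
  rw [smul_add, ← map_nsmul, ← map_nsmul, this, map_nsmul, smul_comm]

/-- Coordinates, Cayley-Hamilton and the trace. -/
theorem exists_coords (hA : Hyp θ A η) (hL : Lat L δ u w) (hs : ∀ p, A p ∈ L ↔ p ∈ L) :
    ∃ a b c d : ℤ, A u = a • u + b • w ∧ A w = c • u + d • w ∧ a * d - b * c = 1 ∧
      CH A (a + d) ∧ η + η⁻¹ = ((a + d : ℤ) : ℝ) := by
  have hu : u ∈ L := (Lat.mem_iff hL u).mpr ⟨1, 0, by simp⟩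
  have hw : w ∈ L := (Lat.mem_iff hL w).mpr ⟨0, 1, by simp⟩
  obtain ⟨a, b, e1⟩ := (Lat.mem_iff hL _).mp ((hs u).mpr hu)
  obtain ⟨c, d, e2⟩ := (Lat.mem_iff hL _).mp ((hs w).mpr hw)
  have hd : det u w ≠ 0 := by rw [hL.det_eq]; exact hL.pos.ne'
  have e3 := hA.det_eq u w
  rw [e1, e2] at e3
  simp only [det_add_left, det_add_right, det_zsmul_left, det_zsmul_right, det_self, mul_zero,
    add_zero, zero_add] at e3
  rw [det_swap u w] at e3
  have e4 : ((a * d - b * c : ℤ) : ℚ) = 1 := by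
    have : ((a * d - b * c : ℤ) : ℚ) * det u w = 1 * det u w := by
      push_cast; linarith
    exact mul_right_cancel₀ hd this
  have e4' : a * d - b * c = 1 := by exact_mod_cast e4
  have hch : CH A (a + d) := by
    refine CH.of_lat hL fun p hp => ?_
    obtain ⟨x, y, rfl⟩ := (Lat.mem_iff hL p).mp hp
    have key : ∀ x y : ℤ, A (x • u + y • w) = (x * a + y * c) • u + (x * b + y * d) • w := by
      intro x y
      rw [map_add, map_zsmul, map_zsmul, e1, e2, smul_add, smul_add, smul_smul, smul_smul,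
        smul_smul, smul_smul, add_smul, add_smul]
      abel
    rw [key, key, smul_add, smul_smul, smul_smul]
    have h1 : (x * a + y * c) * a + (x * b + y * d) * c + x = (a + d) * (x * a + y * c) := by
      linear_combination (-x) * e4'
    have h2 : (x * a + y * c) * b + (x * b + y * d) * d + y = (a + d) * (x * b + y * d) := by
      linear_combination (-y) * e4'
    rw [← h1, ← h2]
    simp only [add_smul]
    abel
  refine ⟨a, b, c, d, e1, e2, e4', hch, ?_⟩
  have h5 := congrArg (ell θ) (hch ((1 : ℚ), (0 : ℚ)))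
  rw [ell_add, ← Int.cast_smul_eq_zsmul ℚ, ell_smul, hA.ell_eq, hA.ell_eq] at h5
  have h6 : ell θ ((1 : ℚ), (0 : ℚ)) = 1 := by simp [ell]
  rw [h6] at h5
  have hη := hA.pos.ne'
  push_cast at h5 ⊢
  field_simp
  linarith

end coords

/-! ### Bezout -/

theorem bez {L : AddSubgroup V} {q : ℕ} (hq : q.Prime) {D : ℤ} (hD : ¬ (q : ℤ) ∣ D) {z : V}
    (hz : z ∈ L) (h : ∃ r ∈ L, D • z = q • r) : ∃ r ∈ L, z = q • r := by
  obtain ⟨r, hr, e⟩ := h
  have hc : IsCoprime (q : ℤ) D :=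
    ((Nat.prime_iff_prime_int.mp hq).coprime_iff_not_dvd).mpr hD
  obtain ⟨a, b, hab⟩ := hc
  refine ⟨a • z + b • r, L.add_mem (L.zsmul_mem hz _) (L.zsmul_mem hr _), ?_⟩
  calc z = (a * q + b * D) • z := by rw [hab, one_smul]
    _ = q • (a • z + b • r) := by
        rw [add_smul, smul_add, mul_smul, mul_smul, e, natCast_zsmul, smul_comm a q,
          smul_comm b q]

section inert

variable {θ η : ℝ} {B : V ≃+ V} {L : AddSubgroup V} {δ : ℚ} {u w : V} {q : ℕ} {T : ℤ}

theorem noeig_base (hq : q.Prime) (hch : CH B T) (hs : ∀ p, B p ∈ L ↔ p ∈ L)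
    (hns : ¬ IsSquare ((T ^ 2 - 4 : ℤ) : ZMod q)) {p : V} (hp : p ∈ L) {m : ℤ}
    (h : ∃ r ∈ L, B p - m • p = q • r) : ∃ r ∈ L, p = q • r := by
  obtain ⟨r, hr, e⟩ := h
  have e1 : B p = m • p + q • r := by rw [← e]; abel
  have hD : ¬ (q : ℤ) ∣ (m ^ 2 - T * m + 1) := by
    intro hd
    apply hns
    refine ⟨((2 * m - T : ℤ) : ZMod q), ?_⟩
    have h0 : ((m ^ 2 - T * m + 1 : ℤ) : ZMod q) = 0 := (ZMod.intCast_zmod_eq_zero_iff_dvd _ _).mpr hd
    push_cast at h0 ⊢
    linear_combination (-4) * h0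
  refine bez hq hD hp ⟨T • r - m • r - B r, ?_, ?_⟩
  · exact L.sub_mem (L.sub_mem (L.zsmul_mem hr _) (L.zsmul_mem hr _)) ((hs r).mpr hr)
  · have e2 := hch p
    rw [e1, map_add, map_zsmul, map_nsmul, e1] at e2
    have e3 : (m ^ 2 - T * m + 1) • p = (m • (m • p + q • r) + q • B r + p) - T • (m • p + q • r)
        + (q • (T • r - m • r - B r)) := by
      simp only [smul_add, smul_sub, add_smul, sub_smul, one_smul, pow_two, mul_smul]
      rw [smul_comm q T r, smul_comm q m r]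
      abel
    rw [e3, e2, sub_self, zero_add]

/-- the determinant of `p, B p` is prime to `q` -/
theorem span_pair (hq : q.Prime) (hL : Lat L δ u w) (hch : CH B T)
    (hs : ∀ p, B p ∈ L ↔ p ∈ L) (hns : ¬ IsSquare ((T ^ 2 - 4 : ℤ) : ZMod q)) {p : V}
    (hp : p ∈ L) (hpq : ¬ ∃ r ∈ L, p = q • r) :
    ∃ D : ℤ, ¬ (q : ℤ) ∣ D ∧ ∀ z ∈ L, ∃ x y : ℤ, D • z = x • p + y • B p := by
  obtain ⟨x, y, ep⟩ := (Lat.mem_iff hL p).mp hp
  obtain ⟨x', y', ep'⟩ := (Lat.mem_iff hL _).mp ((hs p).mpr hp)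
  have hqi : Prime (q : ℤ) := Nat.prime_iff_prime_int.mp hq
  refine ⟨x * y' - x' * y, ?_, ?_⟩
  · intro hd
    by_cases hx : (q : ℤ) ∣ x
    · by_cases hy : (q : ℤ) ∣ y
      · obtain ⟨x1, rfl⟩ := hx
        obtain ⟨y1, rfl⟩ := hy
        refine hpq ⟨x1 • u + y1 • w, Lat.comb hL _ _, ?_⟩
        rw [ep, smul_add, ← natCast_zsmul, ← natCast_zsmul, smul_smul, smul_smul]
      · obtain ⟨a, b, hab⟩ := (hqi.coprime_iff_not_dvd).mpr hy
        -- `b y = 1 mod q`, `m = b y'`
        have h1 : (q : ℤ) ∣ x' - (b * y') * x := by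
          have : x' - (b * y') * x = q * (a * x') - b * (x * y' - x' * y) := by
            linear_combination (-x') * hab
          rw [this]
          exact dvd_sub (dvd_mul_right _ _) (dvd_mul_of_dvd_right hd _)
        have h2 : (q : ℤ) ∣ y' - (b * y') * y := ⟨a * y', by linear_combination (-y') * hab⟩
        obtain ⟨k1, hk1⟩ := h1
        obtain ⟨k2, hk2⟩ := h2
        refine hpq (noeig_base hq hch hs hns hp (m := b * y')
          ⟨k1 • u + k2 • w, Lat.comb hL _ _, ?_⟩)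
        rw [ep', smul_add, ← natCast_zsmul, ← natCast_zsmul, smul_smul, smul_smul, ← hk1, ← hk2,
          ep, smul_add, smul_smul, smul_smul, sub_smul, sub_smul]
        abel
    · obtain ⟨a, b, hab⟩ := (hqi.coprime_iff_not_dvd).mpr hx
      have h1 : (q : ℤ) ∣ y' - (b * x') * y := by
        have : y' - (b * x') * y = q * (a * y') + b * (x * y' - x' * y) := by
          linear_combination (-y') * hab
        rw [this]
        exact dvd_add (dvd_mul_right _ _) (dvd_mul_of_dvd_right hd _)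
      have h2 : (q : ℤ) ∣ x' - (b * x') * x := ⟨a * x', by linear_combination (-x') * hab⟩
      obtain ⟨k1, hk1⟩ := h2
      obtain ⟨k2, hk2⟩ := h1
      refine hpq (noeig_base hq hch hs hns hp (m := b * x')
        ⟨k1 • u + k2 • w, Lat.comb hL _ _, ?_⟩)
      rw [ep', smul_add, ← natCast_zsmul, ← natCast_zsmul, smul_smul, smul_smul, ← hk1, ← hk2,
        ep, smul_add, smul_smul, smul_smul, sub_smul, sub_smul]
      abel
  · intro z hz
    obtain ⟨z1, z2, ez⟩ := (Lat.mem_iff hL z).mp hz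
    refine ⟨z1 * y' - z2 * x', z2 * x - z1 * y, ?_⟩
    rw [ez, ep', ep]
    simp only [smul_add, smul_smul]
    have h1 : (x * y' - x' * y) * z1 = (z1 * y' - z2 * x') * x + (z2 * x - z1 * y) * x' := by ring
    have h2 : (x * y' - x' * y) * z2 = (z1 * y' - z2 * x') * y + (z2 * x - z1 * y) * y' := by ring
    rw [h1, h2, add_smul, add_smul]
    abel

/-- An additive map commuting with `B` which is scalar modulo `q` on one primitive vector is
scalar modulo `q`. -/
theorem scalar_of_one (hq : q.Prime) (hL : Lat L δ u w) (hch : CH B T)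
    (hs : ∀ p, B p ∈ L ↔ p ∈ L) (hns : ¬ IsSquare ((T ^ 2 - 4 : ℤ) : ZMod q))
    (W : V →+ V) (hW : ∀ p ∈ L, W p ∈ L) (hcomm : ∀ p ∈ L, W (B p) = B (W p)) {m : ℤ} {p : V}
    (hp : p ∈ L) (hpq : ¬ ∃ r ∈ L, p = q • r) (h : ∃ r ∈ L, W p - m • p = q • r) :
    ∀ z ∈ L, ∃ r ∈ L, W z - m • z = q • r := by
  intro z hz
  obtain ⟨D, hD, hsp⟩ := span_pair hq hL hch hs hns hp hpq
  obtain ⟨x, y, e⟩ := hsp z hz
  obtain ⟨r, hr, er⟩ := h
  refine bez hq hD (L.sub_mem (hW z hz) (L.zsmul_mem hz _)) ⟨x • r + y • B r, ?_, ?_⟩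
  · exact L.add_mem (L.zsmul_mem hr _) (L.zsmul_mem ((hs r).mpr hr) _)
  · have e1 : D • (W z - m • z) = W (D • z) - m • (D • z) := by
      rw [map_zsmul, smul_sub, smul_comm D m]
    have e2 : W (B p) - m • B p = q • B r := by
      rw [hcomm p hp, ← map_zsmul B, ← map_sub, er, map_nsmul]
    rw [e1, e, map_add, map_zsmul, map_zsmul, smul_add, smul_add, smul_comm q x, smul_comm q y,
      ← er, ← e2, smul_sub, smul_sub, smul_comm x m, smul_comm y m]
    abel

end inert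

end Pool.MP_d0f9e0_co.LL54
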