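import Mathlib
import Pool.Agent.Lib.MP_d0f9e0_co.LL54.Inert

set_option autoImplicit false

/-!
# Inert primes: the order `J` of `B` modulo `q` and `A = B^J`
-/

namespace Pool.MP_d0f9e0_co.LL54

open SH GH

section coords

variable {θ η : ℝ} {A B : V ≃+ V} {L : AddSubgroup V} {δ : ℚ} {u w : V}

theorem pw_coords {a b c d : ℤ} (e1 : B u = a • u + b • w) (e2 : B w = c • u + d • w) (i : ℕ) :
    (pw B i) u = ((!![a, b; c, d] : Matrix (Fin 2) (Fin 2) ℤ) ^ i) 0 0 • u +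
      ((!![a, b; c, d] : Matrix (Fin 2) (Fin 2) ℤ) ^ i) 0 1 • w ∧
    (pw B i) w = ((!![a, b; c, d] : Matrix (Fin 2) (Fin 2) ℤ) ^ i) 1 0 • u +
      ((!![a, b; c, d] : Matrix (Fin 2) (Fin 2) ℤ) ^ i) 1 1 • w := by
  induction i with
  | zero => constructor <;> simp [pow_apply_zero]
  | succ i ih =>
    rw [pow_apply_succ, pow_apply_succ, ih.1, ih.2, map_add, map_add, map_zsmul, map_zsmul,
      map_zsmul, map_zsmul, e1, e2]
    constructor
    · simp only [pow_succ, Matrix.mul_apply, Fin.sum_univ_two, Matrix.of_apply, Matrix.cons_val',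
        Matrix.cons_val_zero, Matrix.cons_val_one, Matrix.cons_val_fin_one, smul_add, smul_smul,
        add_smul]
      abel
    · simp only [pow_succ, Matrix.mul_apply, Fin.sum_univ_two, Matrix.of_apply, Matrix.cons_val',
        Matrix.cons_val_zero, Matrix.cons_val_one, Matrix.cons_val_fin_one, smul_add, smul_smul,
        add_smul]
      abel

theorem pw_stable (hs : ∀ p, B p ∈ L ↔ p ∈ L) (i : ℕ) (p : V) : (pw B i) p ∈ L ↔ p ∈ L := by
  induction i with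
  | zero => rw [pow_apply_zero]
  | succ i ih => rw [pow_apply_succ, hs, ih]

theorem pw_comm (i : ℕ) (p : V) : (pw B i) (B p) = B ((pw B i) p) := by
  rw [← pow_apply_succ, pow_apply_succ']

end coords

section inert

variable {θ η : ℝ} {B : V ≃+ V} {L : AddSubgroup V} {δ : ℚ} {u w : V} {q : ℕ} {T : ℤ}

/-- `B^i` is the identity modulo `q`. -/
def Idm (B : V ≃+ V) (L : AddSubgroup V) (q i : ℕ) : Prop :=
  ∀ p ∈ L, ∃ r ∈ L, (pw B i) p - p = q • r

/-- The order of `B` modulo `q`. -/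
theorem exists_order (hq : q.Prime) (hB : Hyp θ B η) (hL : Lat L δ u w)
    (hs : ∀ p, B p ∈ L ↔ p ∈ L) : ∃ J : ℕ, 0 < J ∧ ∀ i, Idm B L q i ↔ J ∣ i := by
  obtain ⟨a, b, c, d, e1, e2, hdet, -, -⟩ := exists_coords hB hL hs
  have := Fact.mk hq
  set M : Matrix (Fin 2) (Fin 2) ℤ := !![a, b; c, d] with hM
  set M' : Matrix (Fin 2) (Fin 2) (ZMod q) := M.map (Int.castRingHom (ZMod q)) with hM'
  have hM'det : M'.det = 1 := by
    rw [hM', ← RingHom.mapMatrix_apply, ← RingHom.map_det, hM, Matrix.det_fin_two_of, hdet, map_one]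
  have hfin : IsOfFinOrder M' := by
    have hu : IsUnit M' := (Matrix.isUnit_iff_isUnit_det _).mpr (by rw [hM'det]; exact isUnit_one)
    obtain ⟨U, hU⟩ := hu
    rw [← hU]
    exact MonoidHom.isOfFinOrder (Units.coeHom _) (isOfFinOrder_of_finite U)
  have hpow : ∀ i : ℕ, M' ^ i = (M ^ i).map (Int.castRingHom (ZMod q)) := by
    intro i
    rw [hM', ← RingHom.mapMatrix_apply, ← RingHom.mapMatrix_apply, map_pow]
  have hu : u ∈ L := (Lat.mem_iff hL u).mpr ⟨1, 0, by simp⟩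
  have hw : w ∈ L := (Lat.mem_iff hL w).mpr ⟨0, 1, by simp⟩
  refine ⟨orderOf M', hfin.orderOf_pos, fun i => ?_⟩
  rw [orderOf_dvd_iff_pow_eq_one, hpow]
  obtain ⟨c1, c2⟩ := pw_coords (B := B) e1 e2 i
  rw [← hM] at c1 c2
  constructor
  · intro h
    obtain ⟨r, hr, er⟩ := h u hu
    obtain ⟨r', hr', er'⟩ := h w hw
    rw [c1] at er
    rw [c2] at er'
    obtain ⟨d1, d2⟩ := Lat.ind_smul hL (x := (M ^ i) 0 0 - 1) (y := (M ^ i) 0 1) hr (by
      rw [← er, sub_smul, one_smul]; abel)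
    obtain ⟨d3, d4⟩ := Lat.ind_smul hL (x := (M ^ i) 1 0) (y := (M ^ i) 1 1 - 1) hr' (by
      rw [← er', sub_smul, one_smul]; abel)
    rw [← ZMod.intCast_zmod_eq_zero_iff_dvd] at d1 d2 d3 d4
    push_cast at d1 d4
    ext k l
    fin_cases k <;> fin_cases l
    · simpa using sub_eq_zero.mp d1
    · simpa using d2
    · simpa using d3
    · simpa using sub_eq_zero.mp d4
  · intro h p hp
    have f00 := congrFun (congrFun h 0) 0
    have f01 := congrFun (congrFun h 0) 1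
    have f10 := congrFun (congrFun h 1) 0
    have f11 := congrFun (congrFun h 1) 1
    simp only [Matrix.map_apply, Matrix.one_apply_eq, eq_intCast] at f00 f11
    simp only [Matrix.map_apply, eq_intCast, ne_eq, zero_ne_one, not_false_eq_true,
      Matrix.one_apply_ne, one_ne_zero] at f01 f10
    have d1 : (q : ℤ) ∣ (M ^ i) 0 0 - 1 := by
      rw [← ZMod.intCast_zmod_eq_zero_iff_dvd]; push_cast; rw [f00, sub_self]
    have d2 : (q : ℤ) ∣ (M ^ i) 0 1 := by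
      rw [← ZMod.intCast_zmod_eq_zero_iff_dvd]; exact f01
    have d3 : (q : ℤ) ∣ (M ^ i) 1 0 := by
      rw [← ZMod.intCast_zmod_eq_zero_iff_dvd]; exact f10
    have d4 : (q : ℤ) ∣ (M ^ i) 1 1 - 1 := by
      rw [← ZMod.intCast_zmod_eq_zero_iff_dvd]; push_cast; rw [f11, sub_self]
    obtain ⟨k1, h1⟩ := d1
    obtain ⟨k2, h2⟩ := d2
    obtain ⟨k3, h3⟩ := d3
    obtain ⟨k4, h4⟩ := d4
    obtain ⟨x, y, rfl⟩ := (Lat.mem_iff hL p).mp hp
    refine ⟨(x * k1 + y * k3) • u + (x * k2 + y * k4) • w, Lat.comb hL _ _, ?_⟩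
    rw [map_add, map_zsmul, map_zsmul, c1, c2, sub_eq_iff_eq_add.mp h1, h2, h3,
      sub_eq_iff_eq_add.mp h4]
    rw [← natCast_zsmul, sub_eq_iff_eq_add]
    simp only [smul_add, smul_smul]
    have g1 : (x * (q * k1 + 1) + y * (q * k3)) = q * (x * k1 + y * k3) + x := by ring
    have g2 : (x * (q * k2) + y * (q * k4 + 1)) = q * (x * k2 + y * k4) + y := by ring
    calc (x * (q * k1 + 1)) • u + (x * (q * k2)) • w + ((y * (q * k3)) • u + (y * (q * k4 + 1)) • w)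
        = (x * (q * k1 + 1) + y * (q * k3)) • u + (x * (q * k2) + y * (q * k4 + 1)) • w := by
          rw [add_smul, add_smul]; abel
      _ = _ := by rw [g1, g2, add_smul, add_smul]; abel

/-- Free orbits: if `B^i` fixes one primitive vector modulo `q` it is the identity modulo `q`. -/
theorem Idm.of_fix (hq : q.Prime) (hL : Lat L δ u w) (hch : CH B T)
    (hs : ∀ p, B p ∈ L ↔ p ∈ L) (hns : ¬ IsSquare ((T ^ 2 - 4 : ℤ) : ZMod q)) {i : ℕ} {p : V}
    (hp : p ∈ L) (hpq : ¬ ∃ r ∈ L, p = q • r) (h : ∃ r ∈ L, (pw B i) p - p = q • r) :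
    Idm B L q i := by
  intro z hz
  have := scalar_of_one hq hL hch hs hns (pw B i).toAddMonoidHom
    (fun p hp => (pw_stable hs i p).mpr hp) (fun p _ => pw_comm i p) (m := 1) hp hpq
    (by simpa using h) z hz
  simpa using this

theorem pw_sub_mem (hB : Hyp θ B η) (hL : Lat L δ u w) (hs : ∀ p, B p ∈ L ↔ p ∈ L) (i : ℕ)
    {p : V} (hp : p ∈ L) : (pw B i) p - p ∈ L :=
  L.sub_mem ((pw_stable hs i p).mpr hp) hp

/-- **The ambient structure of an inert prime.** -/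
theorem exists_amb (hB : Hyp θ B η) (h1 : 1 < η) (hL : Lat L δ u w)
    (hs : ∀ p, B p ∈ L ↔ p ∈ L) (hT : η + η⁻¹ = (T : ℝ)) (hq : q.Prime)
    (hns : ¬ IsSquare ((T ^ 2 - 4 : ℤ) : ZMod q)) :
    ∃ (J j : ℕ) (T' : ℤ), 0 < J ∧ Amb (pw B J) L q j T' ∧ η ^ J + (η ^ J)⁻¹ = (T' : ℝ) ∧
      (∀ i, Idm B L q i ↔ J ∣ i) := by
  have := Fact.mk hq
  have hq2 : q ≠ 2 := by
    rintro rfl
    apply hns
    generalize ((T ^ 2 - 4 : ℤ) : ZMod 2) = x
    revert x
    decide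
  obtain ⟨a0, b0, c0, d0, -, -, -, hch0, hT0⟩ := exists_coords hB hL hs
  have hTT : a0 + d0 = T := by
    have : (((a0 + d0 : ℤ)) : ℝ) = (T : ℝ) := by rw [← hT0, hT]
    exact_mod_cast this
  have hch : CH B T := hTT ▸ hch0
  obtain ⟨J, hJ, hord⟩ := exists_order (q := q) hq hB hL hs
  have hsA := pw_stable hs J
  obtain ⟨a, b, c, d, e1, e2, hdet, hchA, hTA⟩ := exists_coords (hB.pow J) hL hsA
  have hid : Idm B L q J := (hord J).mpr dvd_rfl
  have hu : u ∈ L := (Lat.mem_iff hL u).mpr ⟨1, 0, by simp⟩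
  have hw : w ∈ L := (Lat.mem_iff hL w).mpr ⟨0, 1, by simp⟩
  -- the gcd of the entries of `A - 1`
  set g : ℕ := Nat.gcd (Nat.gcd (a - 1).natAbs b.natAbs) (Nat.gcd c.natAbs (d - 1).natAbs) with hg
  have hg0 : g ≠ 0 := by
    intro h0
    rw [hg, Nat.gcd_eq_zero_iff, Nat.gcd_eq_zero_iff, Nat.gcd_eq_zero_iff] at h0
    obtain ⟨⟨h2, h3⟩, h4, h5⟩ := h0
    rw [Int.natAbs_eq_zero] at h2 h3 h4 h5
    have ha : a = 1 := by linarith
    have hd : d = 1 := by linarith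
    rw [ha, hd] at hTA
    have h6 : 1 < η ^ J := one_lt_pow₀ h1 hJ.ne'
    have h7 : 0 < η ^ J := by linarith
    have h8 : (η ^ J - 1) ^ 2 = 0 := by
      push_cast at hTA
      field_simp at hTA
      linarith
    have h9 : η ^ J - 1 = 0 := by
      rcases pow_eq_zero_iff (two_ne_zero) |>.mp h8 with h
      exact h
    linarith
  have hgd : ∀ k : ℕ, k ∣ g ↔ ((k : ℤ) ∣ a - 1 ∧ (k : ℤ) ∣ b ∧ (k : ℤ) ∣ c ∧ (k : ℤ) ∣ d - 1) := by
    intro k
    rw [hg, Nat.dvd_gcd_iff, Nat.dvd_gcd_iff, Nat.dvd_gcd_iff, Int.natCast_dvd, Int.natCast_dvd,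
      Int.natCast_dvd, Int.natCast_dvd]
    tauto
  obtain ⟨j, g', hg', hgg⟩ := Nat.exists_eq_pow_mul_and_not_dvd hg0 q hq.one_lt.ne'
  have hqj : ((q ^ j : ℕ) : ℤ) ∣ a - 1 ∧ ((q ^ j : ℕ) : ℤ) ∣ b ∧ ((q ^ j : ℕ) : ℤ) ∣ c ∧
      ((q ^ j : ℕ) : ℤ) ∣ d - 1 := (hgd _).mp (hgg ▸ dvd_mul_right _ _)
  obtain ⟨⟨a', ha'⟩, ⟨b', hb'⟩, ⟨c', hc'⟩, ⟨d', hd'⟩⟩ := hqj
  have hj : j ≠ 0 := by
    rintro rfl
    rw [pow_zero, one_mul] at hgg
    apply hg'
    rw [← hgg]
    rw [hgd]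
    obtain ⟨r, hr, er⟩ := hid u hu
    obtain ⟨r', hr', er'⟩ := hid w hw
    rw [e1] at er
    rw [e2] at er'
    obtain ⟨d1, d2⟩ := Lat.ind_smul hL (x := a - 1) (y := b) hr (by
      rw [← er, sub_smul, one_smul]; abel)
    obtain ⟨d3, d4⟩ := Lat.ind_smul hL (x := c) (y := d - 1) hr' (by
      rw [← er', sub_smul, one_smul]; abel)
    exact ⟨d1, d2, d3, d4⟩
  have hnot : ¬ ((q : ℤ) ∣ a' ∧ (q : ℤ) ∣ b' ∧ (q : ℤ) ∣ c' ∧ (q : ℤ) ∣ d') := by
    rintro ⟨⟨a1, rfl⟩, ⟨b1, rfl⟩, ⟨c1, rfl⟩, ⟨d1, rfl⟩⟩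
    have : q ^ (j + 1) ∣ g := by
      rw [hgd]
      push_cast at ha' hb' hc' hd' ⊢
      exact ⟨⟨a1, by rw [ha']; ring⟩, ⟨b1, by rw [hb']; ring⟩, ⟨c1, by rw [hc']; ring⟩,
        ⟨d1, by rw [hd']; ring⟩⟩
    rw [hgg, pow_succ] at this
    exact hg' ((Nat.mul_dvd_mul_iff_left (pow_pos hq.pos j)).mp this)
  have hqj0 : ((q ^ j : ℕ) : ℤ) ≠ 0 := by
    exact_mod_cast pow_ne_zero _ hq.ne_zero
  -- `A = 1 + q^j U`
  have hAU : ∀ x y : ℤ, (pw B J) (x • u + y • w) - (x • u + y • w) =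
      (q ^ j) • ((x * a' + y * c') • u + (x * b' + y * d') • w) := by
    intro x y
    rw [map_add, map_zsmul, map_zsmul, e1, e2, sub_eq_iff_eq_add.mp ha', hb', hc',
      sub_eq_iff_eq_add.mp hd', ← natCast_zsmul]
    simp only [smul_add, smul_smul, add_smul, mul_add, mul_one]
    rw [show x * (((q ^ j : ℕ) : ℤ) * a') = ((q ^ j : ℕ) : ℤ) * (x * a') by ring,
      show x * (((q ^ j : ℕ) : ℤ) * b') = ((q ^ j : ℕ) : ℤ) * (x * b') by ring,
      show y * (((q ^ j : ℕ) : ℤ) * c') = ((q ^ j : ℕ) : ℤ) * (y * c') by ring,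
      show y * (((q ^ j : ℕ) : ℤ) * d') = ((q ^ j : ℕ) : ℤ) * (y * d') by ring]
    abel
  refine ⟨J, j, a + d, hJ, ⟨hq, hj, hchA, hsA, ?_, ?_⟩, hTA, hord⟩
  · intro p hp
    obtain ⟨x, y, rfl⟩ := (Lat.mem_iff hL p).mp hp
    exact ⟨_, Lat.comb hL _ _, hAU x y⟩
  · intro p hp v hv ev m hm
    by_contra hpq
    -- the map `U`
    let W : V →+ V := (((q : ℚ) ^ j)⁻¹ • ((pw B J).toAddMonoidHom - AddMonoidHom.id V))
    have hWe : ∀ z, W z = ((q : ℚ) ^ j)⁻¹ • ((pw B J) z - z) := fun z => rfl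
    have hq0 : ((q : ℚ) ^ j) ≠ 0 := pow_ne_zero _ (by exact_mod_cast hq.ne_zero)
    have hW1 : ∀ z r, (pw B J) z - z = (q ^ j) • r → W z = r := by
      intro z r hzr
      rw [hWe, hzr, ← Nat.cast_smul_eq_nsmul ℚ, smul_smul]
      push_cast
      rw [inv_mul_cancel₀ hq0, one_smul]
    have hWL : ∀ z ∈ L, W z ∈ L := by
      intro z hz
      obtain ⟨x, y, rfl⟩ := (Lat.mem_iff hL z).mp hz
      rw [hW1 _ _ (hAU x y)]
      exact Lat.comb hL _ _
    have hBq : ∀ (r : ℚ) (z : V), B (r • z) = r • B z := by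
      intro r z
      have := map_rat_smul (B : V ≃+ V) r z
      exact this
    have hWc : ∀ z ∈ L, W (B z) = B (W z) := by
      intro z _
      rw [hWe, hWe, hBq, map_sub, pw_comm]
    have hsc := scalar_of_one hq hL hch hs hns W hWL hWc (m := m) hp hpq
      (by rw [hW1 p v ev]; exact hm)
    have hWu : W u = a' • u + b' • w := by
      have := hAU 1 0
      simp only [one_smul, zero_smul, add_zero, one_mul, zero_mul] at this
      exact hW1 _ _ this
    have hWw : W w = c' • u + d' • w := by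
      have := hAU 0 1
      simp only [one_smul, zero_smul, zero_add, one_mul, zero_mul] at this
      exact hW1 _ _ this
    obtain ⟨r, hr, er⟩ := hsc u hu
    obtain ⟨r', hr', er'⟩ := hsc w hw
    rw [hWu] at er
    rw [hWw] at er'
    obtain ⟨d1, d2⟩ := Lat.ind_smul hL (x := a' - m) (y := b') hr (by
      rw [← er, sub_smul]; abel)
    obtain ⟨d3, d4⟩ := Lat.ind_smul hL (x := c') (y := d' - m) hr' (by
      rw [← er', sub_smul]; abel)
    -- trace
    have htr : a' + d' + ((q ^ j : ℕ) : ℤ) * (a' * d' - b' * c') = 0 := by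
      have h2 : ((q ^ j : ℕ) : ℤ) * (a' + d' + ((q ^ j : ℕ) : ℤ) * (a' * d' - b' * c')) = 0 := by
        have := hdet
        rw [sub_eq_iff_eq_add.mp ha', hb', hc', sub_eq_iff_eq_add.mp hd'] at this
        linear_combination this
      exact (mul_eq_zero.mp h2).resolve_left hqj0
    have hqq : (q : ℤ) ∣ ((q ^ j : ℕ) : ℤ) := by
      push_cast
      exact dvd_pow_self _ hj
    have h2m : (q : ℤ) ∣ 2 * m := by
      have e : 2 * m = -(((q ^ j : ℕ) : ℤ) * (a' * d' - b' * c')) - (a' - m) - (d' - m) := by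
        linear_combination htr
      rw [e]
      exact dvd_sub (dvd_sub (dvd_neg.mpr (dvd_mul_of_dvd_left hqq _)) d1) d4
    have hqi : Prime (q : ℤ) := Nat.prime_iff_prime_int.mp hq
    have hm0 : (q : ℤ) ∣ m := by
      rcases hqi.dvd_or_dvd h2m with h2 | h2
      · exfalso
        have h3 : q ∣ 2 := by exact_mod_cast h2
        exact hq2 ((Nat.prime_dvd_prime_iff_eq hq Nat.prime_two).mp h3)
      · exact h2
    refine hnot ⟨?_, d2, d3, ?_⟩
    · have := dvd_add d1 hm0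
      rwa [sub_add_cancel] at this
    · have := dvd_add d4 hm0
      rwa [sub_add_cancel] at this

end inert

end Pool.MP_d0f9e0_co.LL54
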