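import Mathlib
import Pool.Agent.Lib.MP_d0f9e0_co.GH.Card
import Pool.Agent.Lib.MP_d0f9e0_co.AR81.Sh
import Pool.Agent.Lib.MP_d0f9e0_co.LL54.Inert2

set_option autoImplicit false

/-!
# Bases of the leaf lattices, the group of fixed points, free orbits in `V / L`
-/

namespace Pool.MP_d0f9e0_co.LL54

open SH GH

variable {θ η : ℝ} {A B : V ≃+ V} {L : AddSubgroup V} {δ : ℚ} {u w : V} {q j : ℕ} {T : ℤ}

/-- The vector `q^(-j) (u + s w)`. -/
def wt (q j : ℕ) (u w : V) (s : ℤ) : V := ((q : ℚ) ^ j)⁻¹ • (u + s • w)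

theorem nsmul_wt (hq : q ≠ 0) (u w : V) (s : ℤ) : (q ^ j) • wt q j u w s = u + s • w := by
  have hq0 : ((q : ℚ) ^ j) ≠ 0 := pow_ne_zero _ (by exact_mod_cast hq)
  rw [wt, ← Nat.cast_smul_eq_nsmul ℚ, smul_smul]
  push_cast
  rw [mul_inv_cancel₀ hq0, one_smul]

theorem wt_Wt (hL : Lat L δ u w) (hq : q.Prime) (s : ℤ) : Wt L q j (wt q j u w s) := by
  constructor
  · rw [nsmul_wt hq.ne_zero]
    exact L.add_mem hL.left_mem (L.zsmul_mem hL.right_mem s)
  · rintro ⟨r, hr, e⟩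
    rw [nsmul_wt hq.ne_zero] at e
    have h := (Lat.ind_smul hL (x := 1) (y := s) hr (by rw [one_smul]; exact e)).1
    have h2 : q ∣ 1 := by exact_mod_cast h
    exact hq.one_lt.ne' (Nat.dvd_one.mp h2)

/-- The oriented basis `wt, w` of the leaf lattice. -/
theorem lat_leaf (hL : Lat L δ u w) (hq : q ≠ 0) (s : ℤ) :
    Lat (Lw L (wt q j u w s)) (δ / (q : ℚ) ^ j) (wt q j u w s) w := by
  have hq0 : (0 : ℚ) < (q : ℚ) ^ j := pow_pos (by exact_mod_cast Nat.pos_of_ne_zero hq) _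
  refine ⟨?_, ?_, div_pos hL.pos hq0⟩
  · have m1 : wt q j u w s ∈ AddSubgroup.closure {wt q j u w s, w} :=
      AddSubgroup.subset_closure (Set.mem_insert _ _)
    have m2 : w ∈ AddSubgroup.closure {wt q j u w s, w} :=
      AddSubgroup.subset_closure (Set.mem_insert_of_mem _ rfl)
    apply le_antisymm
    · unfold Lw
      refine sup_le ?_ ?_
      · rw [hL.eq, AddSubgroup.closure_le]
        intro x hx
        rcases hx with hx | hx
        · have e : x = (q ^ j) • wt q j u w s - s • w := by rw [nsmul_wt hq, hx]; abel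
          rw [SetLike.mem_coe, e]
          exact AddSubgroup.sub_mem _ (AddSubgroup.nsmul_mem _ m1 _) (AddSubgroup.zsmul_mem _ m2 _)
        · rw [Set.mem_singleton_iff.mp hx]; exact m2
      · rw [AddSubgroup.zmultiples_le]
        exact m1
    · rw [AddSubgroup.closure_le]
      intro x hx
      rcases hx with hx | hx
      · rw [hx]; exact w_mem_Lw L _
      · rw [Set.mem_singleton_iff.mp hx]; exact le_Lw L _ hL.right_mem
  · rw [wt, det_smul_left, det_add_left, det_zsmul_left, det_self, mul_zero, add_zero, hL.det_eq]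
    field_simp

/-- The basis `w, -u`. -/
theorem lat_swap (hL : Lat L δ u w) : Lat L δ w (-u) := by
  refine ⟨?_, ?_, hL.pos⟩
  · rw [hL.eq]
    apply le_antisymm
    · rw [AddSubgroup.closure_le]
      rintro x (rfl | rfl)
      · have : x = -(-x) := (neg_neg x).symm
        rw [SetLike.mem_coe, this]
        exact AddSubgroup.neg_mem _ (AddSubgroup.subset_closure (by simp))
      · exact AddSubgroup.subset_closure (by simp)
    · rw [AddSubgroup.closure_le]
      rintro x (rfl | rfl)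
      · exact AddSubgroup.subset_closure (by simp)
      · exact AddSubgroup.neg_mem _ (AddSubgroup.subset_closure (by simp))
  · rw [det_neg_right, ← hL.det_eq, det_swap u w, neg_neg]

/-- The order of the group of fixed points modulo the leaf lattice and a generator of its
`q`-part. -/
theorem leaf_card (hθ : Irrational θ) (hA : Hyp θ A η) (h1 : 1 < η) (h : Amb A L q j T)
    {wv : V} (hw : Wt L q j wv) {δ' : ℚ} {u' w' : V} (hL' : Lat (Lw L wv) δ' u' w') :
    ∃ m : ℕ, Nat.card (Fx A (Lw L wv)) = m * q ^ (2 * j) ∧ ¬ q ∣ m ∧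
      ∃ γ : Fx A (Lw L wv), addOrderOf γ = q ^ (2 * j) := by
  obtain ⟨T', -, hT', hc, -, hch⟩ := exists_trace hθ hA h1 hL' (h.stable_Lw hw)
  have hTT : T' = T := by
    have e := (h.ch ((1 : ℚ), (0 : ℚ))).symm.trans (hch ((1 : ℚ), (0 : ℚ)))
    have e2 := congrArg (ell θ) e
    rw [← Int.cast_smul_eq_zsmul ℚ, ← Int.cast_smul_eq_zsmul ℚ, ell_smul, ell_smul, hA.ell_eq] at e2
    have h3 : ell θ ((1 : ℚ), (0 : ℚ)) = 1 := by simp [ell]
    rw [h3, mul_one] at e2
    have h4 := mul_right_cancel₀ hA.pos.ne' e2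
    exact_mod_cast h4.symm
  obtain ⟨m, hm, hmq⟩ := h.trace_eq hw
  rw [hTT, hm] at hc
  have hmpos : 0 ≤ m := by
    by_contra hneg
    push Not at hneg
    have h5 : (0 : ℤ) < (q : ℤ) ^ (2 * j) := pow_pos (by exact_mod_cast h.prime.pos) _
    have h6 : m * (q : ℤ) ^ (2 * j) < 0 := mul_neg_of_neg_of_pos hneg h5
    rw [← hc] at h6
    exact absurd h6 (not_lt.mpr (Int.natCast_nonneg _))
  obtain ⟨m', rfl⟩ := Int.eq_ofNat_of_zero_le hmpos
  obtain ⟨p, hp, ho⟩ := h.exists_gen hw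
  refine ⟨m', by exact_mod_cast hc, by exact_mod_cast hmq,
    ⟨⟨QuotientAddGroup.mk p, (mem_Fx (h.stable_Lw hw) p).mpr hp⟩, ?_⟩⟩
  rw [← ho, ← AddSubgroup.addOrderOf_coe]

/-! ### The orbits of `B` on the `q`-torsion of `V / L` -/

theorem ind_fix (hL : ∀ p, B p ∈ L ↔ p ∈ L) (hq : q ≠ 0) {J : ℕ} (h : Idm B L q J) {t : V ⧸ L}
    (ht : q • t = 0) : ((AR81.ind B L hL)^[J]) t = t := by
  obtain ⟨p, rfl⟩ := QuotientAddGroup.mk_surjective t
  rw [← QuotientAddGroup.mk_nsmul, QuotientAddGroup.eq_zero_iff] at ht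
  obtain ⟨r, hr, e⟩ := h _ ht
  rw [map_nsmul, ← nsmul_sub] at e
  rw [AR81.ind_iter, QuotientAddGroup.eq, neg_add_eq_sub, ← neg_sub]
  rw [nsmul_inj hq e]
  exact L.neg_mem hr

theorem ind_free (hq : q.Prime) (hLat : Lat L δ u w) (hch : CH B T)
    (hL : ∀ p, B p ∈ L ↔ p ∈ L) (hns : ¬ IsSquare ((T ^ 2 - 4 : ℤ) : ZMod q)) {J i : ℕ}
    (hord : ∀ i, Idm B L q i ↔ J ∣ i) (h0 : 0 < i) (hi : i < J) {t : V ⧸ L} (ht : q • t = 0)
    (ht0 : t ≠ 0) : ((AR81.ind B L hL)^[i]) t ≠ t := by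
  obtain ⟨p, rfl⟩ := QuotientAddGroup.mk_surjective t
  rw [← QuotientAddGroup.mk_nsmul, QuotientAddGroup.eq_zero_iff] at ht
  intro hfix
  rw [AR81.ind_iter, QuotientAddGroup.eq, neg_add_eq_sub, ← neg_sub, neg_mem_iff] at hfix
  have h2 : Idm B L q i := by
    refine Idm.of_fix hq hLat hch hL hns ht ?_ ⟨_, hfix, by rw [map_nsmul, ← nsmul_sub]⟩
    rintro ⟨r, hr, e⟩
    apply ht0
    rw [QuotientAddGroup.eq_zero_iff, nsmul_inj hq.ne_zero e]
    exact hr
  exact absurd (Nat.le_of_dvd h0 ((hord i).mp h2)) (not_le.mpr hi)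

end Pool.MP_d0f9e0_co.LL54
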