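import Mathlib
import Pool.Agent.Lib.MP_d0f9e0_co.LL54.Basis

set_option autoImplicit false

/-!
# Every leaf lattice `L + Z w` has an oriented basis
-/

namespace Pool.MP_d0f9e0_co.LL54

open SH GH

variable {L : AddSubgroup V} {δ : ℚ} {u w : V} {q j : ℕ}

theorem lat_any_aux (hL : Lat L δ u w) (hq : q.Prime) {wv : V} {x y : ℤ}
    (hx : ¬ (q : ℤ) ∣ x) (e : (q ^ j) • wv = x • u + y • w) :
    ∃ u' w', Lat (Lw L wv) (δ / (q : ℚ) ^ j) u' w' := by
  have hqi : Prime (q : ℤ) := Nat.prime_iff_prime_int.mp hq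
  have hc : IsCoprime x ((q : ℤ) ^ j) :=
    (((hqi.coprime_iff_not_dvd).mpr hx).pow_left).symm
  obtain ⟨a, b, hab⟩ := hc
  have hn : q ^ j ≠ 0 := pow_ne_zero _ hq.ne_zero
  have hcast : ((q ^ j : ℕ) : ℤ) = (q : ℤ) ^ j := by push_cast; rfl
  set t : V := wt q j u w (a * y) with ht
  have e1 : (q ^ j) • t = u + (a * y) • w := nsmul_wt hq.ne_zero u w (a * y)
  have h1 : t = a • wv + b • u := by
    refine nsmul_inj hn ?_
    rw [e1, smul_add, smul_comm (q ^ j) a, e, smul_comm (q ^ j) b, ← natCast_zsmul u, hcast,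
      smul_smul, smul_add, smul_smul, smul_smul]
    have : u = (a * x + b * (q : ℤ) ^ j) • u := by rw [hab, one_smul]
    conv_lhs => rw [this]
    rw [add_smul]
    abel
  have h2 : wv = x • t + (b * y) • w := by
    refine nsmul_inj hn ?_
    rw [smul_add, smul_comm (q ^ j) x, e1, e, ← natCast_zsmul ((b * y) • w), hcast, smul_add,
      smul_smul, smul_smul]
    have : y • w = (x * (a * y) + (q : ℤ) ^ j * (b * y)) • w := by
      congr 1
      linear_combination (-y) * hab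
    rw [this, add_smul]
    abel
  have h3 : Lw L wv = Lw L t := by
    apply le_antisymm
    · refine sup_le (le_Lw L t) ?_
      rw [AddSubgroup.zmultiples_le, h2]
      exact AddSubgroup.add_mem _ (AddSubgroup.zsmul_mem _ (w_mem_Lw L t) _)
        (le_Lw L t (L.zsmul_mem hL.right_mem _))
    · refine sup_le (le_Lw L wv) ?_
      rw [AddSubgroup.zmultiples_le, h1]
      exact AddSubgroup.add_mem _ (AddSubgroup.zsmul_mem _ (w_mem_Lw L wv) _)
        (le_Lw L wv (L.zsmul_mem hL.left_mem _))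
  exact ⟨t, w, h3 ▸ lat_leaf hL hq.ne_zero (a * y)⟩

/-- Every leaf lattice has an oriented basis. -/
theorem exists_lat_leaf (hL : Lat L δ u w) (hq : q.Prime) {wv : V} (hw : Wt L q j wv) :
    ∃ u' w', Lat (Lw L wv) (δ / (q : ℚ) ^ j) u' w' := by
  obtain ⟨x, y, e⟩ := (Lat.mem_iff hL _).mp hw.mem
  by_cases hx : (q : ℤ) ∣ x
  · by_cases hy : (q : ℤ) ∣ y
    · exfalso
      obtain ⟨x1, rfl⟩ := hx
      obtain ⟨y1, rfl⟩ := hy
      refine hw.prim ⟨x1 • u + y1 • w, Lat.comb hL _ _, ?_⟩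
      rw [e, smul_add, ← natCast_zsmul, ← natCast_zsmul, smul_smul, smul_smul]
    · refine lat_any_aux (lat_swap hL) hq hy (y := -x) ?_
      rw [e, neg_smul, smul_neg, neg_neg, add_comm]
  · exact lat_any_aux hL hq hx e

/-- The primitivity hypotheses of `AC.shift`. -/
theorem prim_right (hL : Lat L δ u w) (hq : q.Prime) (s : ℕ) :
    ¬ ∃ r ∈ L, w + s • u = q • r := by
  rintro ⟨r, hr, e⟩
  have h := (Lat.ind_smul hL (x := s) (y := 1) hr (by
    rw [one_smul, natCast_zsmul, add_comm]; exact e)).2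
  have h2 : q ∣ 1 := by exact_mod_cast h
  exact hq.one_lt.ne' (Nat.dvd_one.mp h2)

theorem prim_left (hL : Lat L δ u w) (hq : q.Prime) (s : ℕ) :
    ¬ ∃ r ∈ L, u + s • w = q • r := by
  rintro ⟨r, hr, e⟩
  have h := (Lat.ind_smul hL (x := 1) (y := s) hr (by
    rw [one_smul, natCast_zsmul]; exact e)).1
  have h2 : q ∣ 1 := by exact_mod_cast h
  exact hq.one_lt.ne' (Nat.dvd_one.mp h2)

end Pool.MP_d0f9e0_co.LL54
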