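import Mathlib
import Pool.Agent.Lib.MP_d0f9e0_co.LL54.AnyLeaf
import Pool.Agent.Lib.MP_d0f9e0_co.AC76.Shift
import Pool.Agent.Lib.MP_d0f9e0_co.AR81.Tors
import Pool.Agent.Lib.MP_d0f9e0_co.GH.AllNG
import Pool.Agent.Lib.MP_d0f9e0_co.GH.Rel87
import Pool.Agent.Lib.MP_d0f9e0_co.GH.Gal32

set_option autoImplicit false

/-!
# The Kronecker congruence at inert primes for the class function
-/

namespace Pool.MP_d0f9e0_co.LL54

open SH GH

variable {S : ℝ → ℝ → ℝ → ℝ} {θ η : ℝ} {A B : V ≃+ V} {L : AddSubgroup V} {δ : ℚ} {u w : V}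
  {q j : ℕ} {T : ℤ}

theorem leafNG (hNG : AllNG S) (hθ : Irrational θ) (hA : Hyp θ A η) (h1 : 1 < η)
    (hL : Lat L δ u w) (h : Amb A L q j T) : AC.LeafNG S θ η A L q j := by
  intro wv hw
  obtain ⟨u', w', hL'⟩ := exists_lat_leaf hL h.prime hw
  have hst : Stb A (Lw L wv) := h.stable_Lw hw
  have hfin := finite_Fx hθ hA h1 hL' hst
  letI := Fintype.ofFinite (Fx A (Lw L wv))
  exact ⟨inferInstance, _, _, hNG θ A η (Lw L wv) _ u' w' hθ hA h1 hL' hst⟩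

theorem good_of_hyp (hθ : Irrational θ) (hA : Hyp θ A η) (h1 : 1 < η) (hL : Lat L δ u w) :
    SH.Good θ A η := by
  obtain ⟨v, -, h2, h3⟩ := exists_adm hθ hA h1 hL
  exact ⟨hA, v, h2, h3⟩

theorem shLat (hL : Lat L δ u w) : SH.Lat L :=
  ⟨AR81.lat_disc hL, fun p => exists_mul_mem hL p⟩

/-- The congruence for one valuation. -/
theorem frob_val {Γ₀ : Type*} [LinearOrderedCommGroupWithZero Γ₀] (v : Valuation ℂ Γ₀)
    (hS : SH.DS S) (hNG : AllNG S) (hθ : Irrational θ) (hB : Hyp θ B η) (h1 : 1 < η)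
    (hL : Lat L δ u w) (hs : Stb B L) (hT : η + η⁻¹ = (T : ℝ)) (hq : q.Prime)
    (hcard : Nat.card (GH.Fx B L) < q) (hns : ¬ IsSquare ((T ^ 2 - 4 : ℤ) : ZMod q))
    (hvq : v (q : ℂ) < 1) (x : V ⧸ L) (hx : x ∈ GH.Fx B L) :
    v (cL S θ B L x : ℂ) = 1 ∧
      v ((cL S θ B L (q • x) : ℂ) ^ 2 - ((cL S θ B L x : ℂ) ^ 2) ^ q ^ 2) < 1 := by
  obtain ⟨J, j, T', hJ, hamb, hT', hord⟩ := exists_amb hB h1 hL hs hT hq hns
  have hq2 : q ≠ 2 := by
    rintro rfl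
    apply hns
    generalize ((T ^ 2 - 4 : ℤ) : ZMod 2) = x
    revert x
    decide
  obtain ⟨a0, b0, c0, d0, -, -, -, hch0, hT0⟩ := exists_coords hB hL hs
  have hTT : a0 + d0 = T := by
    have : (((a0 + d0 : ℤ)) : ℝ) = (T : ℝ) := by rw [← hT0, hT]
    exact_mod_cast this
  have hch : CH B T := hTT ▸ hch0
  have hA := hB.pow J
  have hA1 : 1 < η ^ J := one_lt_pow₀ h1 hJ.ne'
  obtain ⟨Vq, hVq, hVc⟩ := AR81.exists_Vq hL hq.pos
  obtain ⟨vv, hvL, hv1, hv2⟩ := exists_adm hθ hB h1 hL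
  have hfin := finite_Fx hθ hB h1 hL hs
  have hN : Nat.card (GH.Fx B L) • x = 0 := by
    have h2 : Nat.card (GH.Fx B L) • (⟨x, hx⟩ : GH.Fx B L) = 0 := by
      letI := Fintype.ofFinite (GH.Fx B L)
      rw [Nat.card_eq_fintype_card]
      exact card_nsmul_eq_zero
    have h3 := congrArg Subtype.val h2
    rw [AddSubgroup.coe_nsmul] at h3
    exact h3
  have hpos : 0 < Nat.card (GH.Fx B L) := Nat.card_pos
  have hcop : q.Coprime (Nat.card (GH.Fx B L)) := by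
    rw [Nat.Prime.coprime_iff_not_dvd hq]
    intro hd
    exact absurd (Nat.le_of_dvd hpos hd) (not_le.mpr hcard)
  obtain ⟨p, rfl⟩ := QuotientAddGroup.mk_surjective x
  have hxf : AR81.ind B L hs (QuotientAddGroup.mk p) = QuotientAddGroup.mk p := by
    rw [mem_Fx hs] at hx
    rw [AR81.ind_mk, QuotientAddGroup.eq, neg_add_eq_sub, ← neg_sub, neg_mem_iff]
    exact hx
  refine AR81.frobSH v hS hθ hB hs (AR81.lat_disc hL) hvL hv1 hv2 hq.one_lt hJ Vq hVq hVc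
    (fun t ht => ind_fix hs hq.ne_zero ((hord J).mpr dvd_rfl) ((hVq t).mp ht))
    (fun i hi0 hiJ t ht ht0 => ind_free hq hL hch hs hns hord hi0 hiJ ((hVq t).mp ht) ht0)
    ?_ hxf hN hcop
  intro y hy t ht
  obtain ⟨p', rfl⟩ := QuotientAddGroup.mk_surjective y
  obtain ⟨t', rfl⟩ := QuotientAddGroup.mk_surjective t
  rw [← QuotientAddGroup.mk_nsmul, QuotientAddGroup.eq_zero_iff] at ht
  have hp' : (pw B J) p' - p' ∈ L := by
    have h3 : ((AR81.ind B L hs)^[J]) (QuotientAddGroup.mk p') = QuotientAddGroup.mk p' :=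
      Function.iterate_fixed hy J
    rw [AR81.ind_iter, QuotientAddGroup.eq, neg_add_eq_sub, ← neg_sub, neg_mem_iff] at h3
    exact h3
  have h4 := AC.shift v hS hθ (good_of_hyp hθ hA hA1 hL) (shLat hL) hamb hT' hq2 hvq
    (leafNG hNG hθ hA hA1 hL hamb) (e := u) (f := w)
    (fun l hl => (Lat.mem_iff hL l).mp hl) hL.left_mem hL.right_mem
    (fun s => prim_right hL hq s) (fun s => prim_left hL hq s) hp' ht
  unfold AC.Near AC.csq at h4
  rw [← div_pow] at h4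
  exact h4

/-- **The law of `NG.exists_sigma`.** -/
theorem law (hS : SH.DS S) (hNG : AllNG S) (hθ : Irrational θ) (hB : Hyp θ B η) (h1 : 1 < η)
    (hL : Lat L δ u w) (hs : Stb B L) (hT : η + η⁻¹ = (T : ℝ)) (q : ℕ) (hq : q.Prime)
    (hcard : Nat.card (GH.Fx B L) < q) (hns : ¬ IsSquare ((T ^ 2 - 4 : ℤ) : ZMod q))
    (O : ValuationSubring ℂ) (hO : (q : ℂ) ∈ O.nonunits) (x : GH.Fx B L) :
    (((cL S θ B L x) ^ 2 : ℝ) : ℂ) ∈ O ∧
      (((cL S θ B L x) ^ 2 : ℝ) : ℂ) ^ (q ^ 2) - (((cL S θ B L (q • x : GH.Fx B L)) ^ 2 : ℝ) : ℂ) ∈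
        O.nonunits := by
  have hvq : O.valuation (q : ℂ) < 1 := (ValuationSubring.mem_nonunits_iff O).mp hO
  obtain ⟨h2, h3⟩ := frob_val O.valuation hS hNG hθ hB h1 hL hs hT hq hcard hns hvq x.1 x.2
  constructor
  · rw [← ValuationSubring.valuation_le_one_iff]
    push_cast
    rw [map_pow, h2, one_pow]
  · rw [ValuationSubring.mem_nonunits_iff]
    push_cast
    rw [← Valuation.map_neg, neg_sub]
    exact h3

/-- **Unitarity**: one automorphism of `ℂ` makes all values on `GH.Fx B L` unimodular. -/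
theorem exists_sigma (hS : SH.DS S) (hNG : AllNG S) (hθ : Irrational θ) (hB : Hyp θ B η)
    (h1 : 1 < η) (hL : Lat L δ u w) (hs : Stb B L) [Fintype (GH.Fx B L)] :
    ∃ σ : ℂ ≃+* ℂ, (∀ x : GH.Fx B L, x ≠ 0 → ‖σ ((cL S θ B L x : ℝ) : ℂ)‖ = 1) ∧
      ∀ x : GH.Fx B L, ‖σ (zL θ B L x / zL θ B L (0 : GH.Fx B L))‖ = 1 := by
  obtain ⟨T, hT3, hT, -, -, -⟩ := exists_trace hθ hB h1 hL hs
  obtain ⟨σ, -, h2, h3⟩ := NG.exists_sigma (hNG θ B η L δ u w hθ hB h1 hL hs) T hT3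
    (Nat.card (GH.Fx B L)) (fun q hq hc hns O hO x _ =>
      law hS hNG hθ hB h1 hL hs hT q hq hc hns O hO x)
  exact ⟨σ, h2, h3⟩

end Pool.MP_d0f9e0_co.LL54
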