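import Mathlib
import Pool.Agent.Lib.MP_d0f9e0_co.LL54.Law54
import Pool.Agent.Lib.MP_d0f9e0_co.GH.FinalA

set_option autoImplicit false

/-!
# The congruence law for all lattices, and the final reduction to near group data
-/

namespace Pool.MP_d0f9e0_co.LL54

open SH GH

variable {S : ℝ → ℝ → ℝ → ℝ}

theorem allLaw (hS : SH.DS S) (hNG : AllNG S) : AllLaw S := by
  intro θ A η L δ u w tr hθ hA h1 hL hs hT
  refine ⟨Nat.card (GH.Fx A L), ?_⟩
  intro q hq hc hns O hO x hx _
  have h := law hS hNG hθ hA h1 hL hs hT q hq hc hns O hO ⟨x, hx⟩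
  rw [AddSubgroup.coe_nsmul] at h
  exact h

/-- Equiangular lines from near group data for all lattices. -/
theorem hasETF_of_allNG (hS : SH.DS S) (hNG : AllNG S) {d : ℕ} (hd : 4 ≤ d) :
    Pool.Agent.Lib.MP_d0f9e0_co.FN.HasETF d :=
  GH.hasETF_of_allLaw hS.cs hNG (allLaw hS hNG) hd

end Pool.MP_d0f9e0_co.LL54
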